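import Pool.Agent.Helper66_D2.Stmts
import Pool.Agent.Helper20_PP.Fun

/-!
# Part D2, module PSB: blocks modulo a central subgroup of order `ℓ`
-/

open scoped BigOperators

noncomputable section

namespace Pool.Agent.PP.CD2.H24

open Pool.Agent.PP Pool.Agent.Helper51_AWC Pool.Agent.Helper79_WRA Pool.Agent.PP.H20

variable {F : Type} [Field F] {G H : Type} [Group G] [Finite G] [Group H] [Finite H]

/-- the map of group algebras -/
def Phi (F : Type) [Field F] (p : G →* H) : MonoidAlgebra F G →+* MonoidAlgebra F H :=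
  MonoidAlgebra.mapDomainRingHom F p

omit [Finite G] [Finite H] in
theorem Phi_single (p : G →* H) (g : G) (r : F) :
    Phi F p (MonoidAlgebra.single g r) = MonoidAlgebra.single (p g) r :=
  MonoidAlgebra.mapDomain_single

theorem Phi_toMA (p : G →* H) (a : G → F) : Phi F p (toMA a) = toMA (H75.push p a) := by
  classical
  have := Fintype.ofFinite G
  have := Fintype.ofFinite H
  rw [toMA_eq, toMA_eq, map_sum]
  simp only [Phi_single]
  rw [← Finset.sum_fiberwise Finset.univ p]
  refine Finset.sum_congr rfl fun h _ => ?_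
  rw [H75.push_eq, ← Finset.sum_filter]
  have h1 : ∀ g ∈ Finset.univ.filter (fun g => p g = h), MonoidAlgebra.single (p g) (a g) =
      MonoidAlgebra.single h (a g) := fun g hg => by rw [(Finset.mem_filter.1 hg).2]
  rw [Finset.sum_congr rfl h1]
  exact (map_sum (MonoidAlgebra.singleAddHom h) a _).symm

/-- central elements of the group -/
theorem u_comm {y : G} (hy : y ∈ Subgroup.center G) (x : MonoidAlgebra F G) :
    Commute (MonoidAlgebra.single y (1 : F)) x := by
  obtain ⟨c, rfl⟩ := toMA_surjective x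
  rw [Commute, SemiconjBy, single_mul_toMA, toMA_mul_single]
  congr 1
  funext z
  congr 1
  exact (Subgroup.mem_center_iff.1 (inv_mem hy) z).symm

theorem u1_comm {y : G} (hy : y ∈ Subgroup.center G) (x : MonoidAlgebra F G) :
    Commute (MonoidAlgebra.single y (1 : F) - 1) x :=
  (u_comm hy x).sub_left (Commute.one_left x)

/-- the kernel -/
theorem ker_Phi {p : G →* H} (hp : Function.Surjective p) {y : G} (hy : y ∈ Subgroup.center G)
    (hk : p.ker = Subgroup.zpowers y) (x : MonoidAlgebra F G) (hx : Phi F p x = 0) :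
    ∃ c, x = (MonoidAlgebra.single y (1 : F) - 1) * c := by
  classical
  have := Fintype.ofFinite G
  have := Fintype.ofFinite H
  obtain ⟨a, rfl⟩ := toMA_surjective x
  have h0 : H75.push p a = 0 := by
    apply toMA_injective
    rw [← Phi_toMA, hx, toMA_zero]
  let s : H → G := Function.surjInv hp
  have hs : ∀ h, p (s h) = h := Function.surjInv_eq hp
  have h1 : ∑ g, MonoidAlgebra.single (s (p g)) (a g) = (0 : MonoidAlgebra F G) := by
    rw [← Finset.sum_fiberwise Finset.univ p]
    refine Finset.sum_eq_zero fun h _ => ?_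
    have h2 : ∀ g ∈ Finset.univ.filter (fun g => p g = h), MonoidAlgebra.single (s (p g)) (a g) =
        MonoidAlgebra.single (s h) (a g) := fun g hg => by rw [(Finset.mem_filter.1 hg).2]
    rw [Finset.sum_congr rfl h2]
    have h3 := congrFun h0 h
    rw [H75.push_eq, ← Finset.sum_filter] at h3
    have h4 := (map_sum (MonoidAlgebra.singleAddHom (R := F) (s h)) a
      (Finset.univ.filter (fun g => p g = h))).symm
    rw [h3] at h4
    exact h4.trans (map_zero _)
  have h2 : ∀ g : G, ∃ c : MonoidAlgebra F G,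
      MonoidAlgebra.single g (a g) - MonoidAlgebra.single (s (p g)) (a g) =
        (MonoidAlgebra.single y (1 : F) - 1) * c := by
    intro g
    have h3 : (s (p g))⁻¹ * g ∈ Subgroup.zpowers y := by
      rw [← hk, MonoidHom.mem_ker, map_mul, map_inv, hs, inv_mul_cancel]
    obtain ⟨k, hk⟩ := mem_powers_iff_mem_zpowers.2 h3
    refine ⟨MonoidAlgebra.single (s (p g)) (a g) *
      ∑ i ∈ Finset.range k, MonoidAlgebra.single y (1 : F) ^ i, ?_⟩
    rw [← mul_assoc, (u1_comm hy (MonoidAlgebra.single (s (p g)) (a g))).eq, mul_assoc,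
      mul_geom_sum, mul_sub, mul_one, MonoidAlgebra.single_pow, one_pow,
      MonoidAlgebra.single_mul_single, mul_one]
    have h4 : s (p g) * y ^ k = g := by
      change y ^ k = _ at hk
      rw [hk, mul_inv_cancel_left]
    rw [h4]
  choose c hc using h2
  refine ⟨∑ g, c g, ?_⟩
  rw [Finset.mul_sum, ← Finset.sum_congr rfl (fun g _ => hc g), Finset.sum_sub_distrib, h1,
    sub_zero, toMA_eq]

theorem u1_nil {ℓ : ℕ} [Fact ℓ.Prime] [CharP F ℓ] {y : G} (hy : orderOf y = ℓ) :
    (MonoidAlgebra.single y (1 : F) - 1 : MonoidAlgebra F G) ^ ℓ = 0 := by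
  have : CharP (MonoidAlgebra F G) ℓ := charP_of_injective_algebraMap
    (algebraMap F (MonoidAlgebra F G)).injective ℓ
  rw [sub_pow_char_of_commute ℓ (Commute.one_right _), one_pow,
    MonoidAlgebra.single_pow, one_pow, ← hy, pow_orderOf_eq_one]
  exact sub_self _

theorem ker_nil {ℓ : ℕ} [Fact ℓ.Prime] [CharP F ℓ] {p : G →* H} (hp : Function.Surjective p)
    {y : G} (hy : y ∈ Subgroup.center G) (ho : orderOf y = ℓ)
    (hk : p.ker = Subgroup.zpowers y) (x : MonoidAlgebra F G) (hx : Phi F p x = 0) :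
    IsNilpotent x := by
  obtain ⟨c, rfl⟩ := ker_Phi hp hy hk x hx
  refine ⟨ℓ, ?_⟩
  rw [(u1_comm hy c).mul_pow, u1_nil ho, zero_mul]

/-- an idempotent which is central modulo the kernel is central -/
theorem central_of {ℓ : ℕ} [Fact ℓ.Prime] [CharP F ℓ] {p : G →* H} (hp : Function.Surjective p)
    {y : G} (hy : y ∈ Subgroup.center G) (ho : orderOf y = ℓ)
    (hk : p.ker = Subgroup.zpowers y) (f : MonoidAlgebra F G) (hf : f * f = f)
    (hc : ∀ z, Phi F p f * z = z * Phi F p f) (a : MonoidAlgebra F G) : f * a = a * f := by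
  have key : ∀ e e' : MonoidAlgebra F G, e * e = e → e' * e' = e' →
      (∀ a, Phi F p (e * a * e') = 0) → ∀ n : ℕ, ∀ a, ∃ c,
        e * a * e' = (MonoidAlgebra.single y (1 : F) - 1) ^ n * (e * c * e') := by
    intro e e' he he' h n
    induction n with
    | zero => exact fun a => ⟨a, by rw [pow_zero, one_mul]⟩
    | succ n ih =>
      intro a
      obtain ⟨c, hc⟩ := ker_Phi hp hy hk _ (h a)
      obtain ⟨c', hc'⟩ := ih c
      refine ⟨c', ?_⟩
      have h1 : e * a * e' = e * (e * a * e') * e' := by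
        calc e * a * e' = (e * e) * a * (e' * e') := by rw [he, he']
          _ = e * (e * a * e') * e' := by simp only [mul_assoc]
      rw [h1, hc, ← mul_assoc e, ← (u1_comm hy e).eq, mul_assoc (_ - 1) e, mul_assoc (_ - 1), hc',
        ← mul_assoc, ← pow_succ']
  have hz : ∀ e e' : MonoidAlgebra F G, e * e = e → e' * e' = e' →
      (∀ a, Phi F p (e * a * e') = 0) → ∀ a, e * a * e' = 0 := by
    intro e e' he he' h a
    obtain ⟨c, hc⟩ := key e e' he he' h ℓ a
    rw [hc, u1_nil ho, zero_mul]
  have hf1 : (1 - f) * (1 - f) = 1 - f := by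
    rw [mul_sub, mul_one, sub_mul, one_mul, hf, sub_self, sub_zero]
  have h1 : f * a * (1 - f) = 0 := by
    refine hz f (1 - f) hf hf1 (fun b => ?_) a
    rw [map_mul, map_mul, map_sub, map_one, hc, mul_assoc, mul_sub, mul_one, ← map_mul, hf,
      sub_self, mul_zero]
  have h2 : (1 - f) * a * f = 0 := by
    refine hz (1 - f) f hf1 hf (fun b => ?_) a
    rw [map_mul, map_mul, map_sub, map_one, mul_assoc, ← hc, ← mul_assoc, sub_mul, one_mul,
      ← map_mul, hf, sub_self, zero_mul]
  rw [mul_sub, mul_one, sub_eq_zero] at h1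
  rw [mul_assoc, sub_mul, one_mul, sub_eq_zero, ← mul_assoc] at h2
  rw [h1, h2]

/-- PSB -/
theorem psb : PsbStmt := by
  intro ℓ _ F _ hF G H _ _ _ _ p hp y ho hy hk e he
  have := hF.char
  refine ⟨H75.push_isIdem hp he.1, ?_, ?_⟩
  · intro h0
    apply he.2.1
    have h1 : Phi F p (toMA e) = 0 := by rw [Phi_toMA, h0, toMA_zero]
    obtain ⟨n, hn⟩ := ker_nil hp hy ho hk _ h1
    have h2 : IsIdempotentElem (toMA e) := by
      rw [IsIdempotentElem, ← toMA_mulF, he.1.2]
    apply toMA_injective
    rw [toMA_zero]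
    have h3 := h2.pow_succ_eq n
    rw [pow_succ, hn, zero_mul] at h3
    exact h3.symm
  · intro g' hg'
    have hg2 : IsIdempotentElem (toMA g') := by
      rw [IsIdempotentElem, ← toMA_mulF, hg'.2]
    have hsur : toMA g' ∈ (Phi F p).range := by
      have := Fintype.ofFinite H
      rw [toMA_eq]
      refine sum_mem fun h _ => ?_
      obtain ⟨g, rfl⟩ := hp h
      exact ⟨MonoidAlgebra.single g (g' (p g)), Phi_single p g _⟩
    obtain ⟨f, hf, hfg⟩ := exists_isIdempotentElem_eq_of_ker_isNilpotent (Phi F p)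
      (fun x hx => ker_nil hp hy ho hk x hx) _ hsur hg2
    obtain ⟨g, rfl⟩ := toMA_surjective f
    have hpg : H75.push p g = g' := by
      apply toMA_injective
      rw [← Phi_toMA, hfg]
    have hcl : IsCl g := by
      rw [Pool.Agent.PP.H20.isCl_iff]
      refine central_of hp hy ho hk _ hf ?_
      rw [hfg]
      exact (Pool.Agent.PP.H20.isCl_iff g').1 hg'.1
    have hid : IsIdem g := ⟨hcl, by
      apply toMA_injective
      rw [toMA_mulF]
      exact hf⟩
    rw [← hpg, ← H75.push_mulF]
    rcases he.2.2 g hid with h | h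
    · exact Or.inl (by rw [h])
    · exact Or.inr (by rw [h, H75.push_zero])

end Pool.Agent.PP.CD2.H24
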